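import Pool.Agent.J4H58.XC.Stm3
import Pool.Agent.Results.MP_6d896a_gt.OneSymmetric

/-!
# Poincare's inequality for 1-symmetric log-concave densities on cubes (project XC, X12)
-/

set_option autoImplicit false

namespace Pool.Agent.J4H98.XC

open MeasureTheory Set Filter Topology
open scoped ENNReal
open Pool.Agent.J4H58.XC

theorem norm_sq_clm {n : ℕ} (l : EuclideanSpace ℝ (Fin n) →L[ℝ] ℝ) :
    ‖l‖ ^ 2 = ∑ i, l (EuclideanSpace.single i 1) ^ 2 := by
  set v := (InnerProductSpace.toDual ℝ (EuclideanSpace ℝ (Fin n))).symm l with hv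
  have h1 : ‖l‖ = ‖v‖ := by rw [hv, LinearIsometryEquiv.norm_map]
  rw [h1, EuclideanSpace.norm_sq_eq]
  apply Finset.sum_congr rfl
  intro i _
  have h2 : l (EuclideanSpace.single i 1) = v i := by
    have h3 : l (EuclideanSpace.single i 1) = inner ℝ v (EuclideanSpace.single i 1) := by
      rw [hv, InnerProductSpace.toDual_symm_apply]
    rw [h3, EuclideanSpace.inner_single_right]
    simp
  rw [h2, Real.norm_eq_abs, sq_abs]

theorem fderiv_ofLp {n : ℕ} {f : (Fin n → ℝ) → ℝ} (hf : ContDiff ℝ 1 f)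
    (x : EuclideanSpace ℝ (Fin n)) :
    ‖fderiv ℝ (fun y : EuclideanSpace ℝ (Fin n) => f y.ofLp) x‖ ^ 2 = gr f x.ofLp := by
  rw [norm_sq_clm]
  unfold gr pd
  apply Finset.sum_congr rfl
  intro i _
  have h1 : HasFDerivAt (fun y : EuclideanSpace ℝ (Fin n) => f y.ofLp)
      ((fderiv ℝ f x.ofLp).comp
        (PiLp.continuousLinearEquiv 2 ℝ (fun _ : Fin n => ℝ)).toContinuousLinearMap) x := by
    have h2 : HasFDerivAt f (fderiv ℝ f x.ofLp) (PiLp.continuousLinearEquiv 2 ℝ (fun _ : Fin n => ℝ) x) :=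
      (hf.differentiable one_ne_zero _).hasFDerivAt
    exact h2.comp x (PiLp.continuousLinearEquiv 2 ℝ (fun _ : Fin n => ℝ)).hasFDerivAt
  rw [h1.fderiv]
  rfl

theorem int_ofLp {n : ℕ} (G : (Fin n → ℝ) → ℝ) :
    ∫ x : EuclideanSpace ℝ (Fin n), G x.ofLp = ∫ x, G x :=
  (EuclideanSpace.volume_preserving_symm_measurableEquiv_toLp (Fin n)).integral_comp'
    (g := G)

theorem itg_ofLp {n : ℕ} {G : (Fin n → ℝ) → ℝ} (h : Integrable G) :
    Integrable fun x : EuclideanSpace ℝ (Fin n) => G x.ofLp :=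
  (EuclideanSpace.volume_preserving_symm_measurableEquiv_toLp (Fin n)).integrable_comp_of_integrable h

theorem meas_ofLp {n : ℕ} : Measurable fun x : EuclideanSpace ℝ (Fin n) => x.ofLp :=
  (PiLp.continuous_ofLp 2 (fun _ : Fin n => ℝ)).measurable

/-- integrals for a measure with a density -/
theorem wd {n : ℕ} {q : (Fin n → ℝ) → ℝ} (hq : Measurable q) (hq0 : ∀ x, 0 ≤ q x)
    {G : (Fin n → ℝ) → ℝ} (hi : Integrable fun x => q x * G x) :
    Integrable (fun x : EuclideanSpace ℝ (Fin n) => G x.ofLp)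
      (volume.withDensity fun x : EuclideanSpace ℝ (Fin n) => ENNReal.ofReal (q x.ofLp)) ∧
    ∫ x : EuclideanSpace ℝ (Fin n), G x.ofLp
      ∂(volume.withDensity fun x : EuclideanSpace ℝ (Fin n) => ENNReal.ofReal (q x.ofLp)) =
        ∫ x, q x * G x := by
  have hm : AEMeasurable (fun x : EuclideanSpace ℝ (Fin n) => ENNReal.ofReal (q x.ofLp)) volume :=
    (hq.comp meas_ofLp).ennreal_ofReal.aemeasurable
  have hlt : ∀ᵐ x : EuclideanSpace ℝ (Fin n), ENNReal.ofReal (q x.ofLp) < ∞ :=
    Eventually.of_forall fun x => ENNReal.ofReal_lt_top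
  have he : (fun x : EuclideanSpace ℝ (Fin n) => (ENNReal.ofReal (q x.ofLp)).toReal • G x.ofLp) =
      fun x => (fun y => q y * G y) x.ofLp := by
    funext x
    rw [ENNReal.toReal_ofReal (hq0 _), smul_eq_mul]
  constructor
  · rw [integrable_withDensity_iff_integrable_smul₀' hm hlt, he]
    exact itg_ofLp hi
  · rw [integral_withDensity_eq_integral_toReal_smul₀ hm hlt, he]
    exact int_ofLp fun y => q y * G y

theorem t_X12 : S_X12 := by
  obtain ⟨C, hC, hres⟩ := Pool.Agent.Results.MP_6d896a_gt.OneSymmetric.result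
  refine ⟨C, hC, ?_⟩
  intro n hn ρ hρ hc hpos L s hL hs hmom f hf
  -- the normalisation
  have hflc : Continuous (fl ρ) := hc.comp (PiLp.continuous_toLp 2 _)
  have hK : IsCompact (cu n L) := isCompact_Icc
  have hKm : MeasurableSet (cu n L) := measurableSet_Icc
  have hio : ∀ G : (Fin n → ℝ) → ℝ, Continuous G → IntegrableOn G (cu n L) := fun G hG =>
    hG.continuousOn.integrableOn_compact hK
  set Z : ℝ := ∫ x in cu n L, fl ρ x with hZ
  have hZp : 0 < Z := by
    have h0 : 0 ≤ᵐ[volume.restrict (cu n L)] fl ρ := Eventually.of_forall fun x => (hpos _).le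
    rw [hZ, setIntegral_pos_iff_support_of_nonneg_ae h0 (hio _ hflc)]
    have h1 : Function.support (fl ρ) = univ := by
      ext x
      simp only [Function.mem_support, mem_univ, iff_true]
      exact (hpos _).ne'
    rw [h1, univ_inter]
    unfold cu
    rw [Real.volume_Icc_pi, pos_iff_ne_zero, Finset.prod_ne_zero_iff]
    intro i _
    rw [ENNReal.ofReal_ne_zero_iff]
    linarith
  -- the density
  set q : (Fin n → ℝ) → ℝ := (cu n L).indicator fun x => fl ρ x / Z with hq
  have hqm : Measurable q := (hflc.measurable.div_const Z).indicator hKm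
  have hq0 : ∀ x, 0 ≤ q x := fun x => indicator_nonneg (fun y _ => div_nonneg (hpos _).le hZp.le) x
  have hqi : ∀ G : (Fin n → ℝ) → ℝ, Continuous G → Integrable fun x => q x * G x := by
    intro G hG
    have h1 : (fun x => q x * G x) = (cu n L).indicator fun x => fl ρ x / Z * G x := by
      funext x
      rw [hq]
      by_cases hx : x ∈ cu n L
      · simp [hx]
      · simp [hx]
    rw [h1, integrable_indicator_iff hKm]
    exact hio _ ((hflc.div_const Z).mul hG)
  have hqv : ∀ G : (Fin n → ℝ) → ℝ, ∫ x, q x * G x = (∫ x in cu n L, fl ρ x * G x) / Z := by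
    intro G
    have h1 : (fun x => q x * G x) = (cu n L).indicator fun x => (fl ρ x * G x) / Z := by
      funext x
      rw [hq]
      by_cases hx : x ∈ cu n L
      · simp only [hx, indicator_of_mem]
        ring
      · simp [hx]
    rw [h1, integral_indicator hKm, integral_div]
  set ρ' : EuclideanSpace ℝ (Fin n) → ℝ := fun x => q x.ofLp with hρ'
  have hin : ∀ x : EuclideanSpace ℝ (Fin n), x.ofLp ∈ cu n L → ρ' x = ρ x / Z := by
    intro x hx
    rw [hρ', hq]
    simp only [hx, indicator_of_mem]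
    rfl
  have hout : ∀ x : EuclideanSpace ℝ (Fin n), x.ofLp ∉ cu n L → ρ' x = 0 := by
    intro x hx
    rw [hρ', hq]
    simp only [indicator_of_notMem hx]
  have hmem : ∀ x : EuclideanSpace ℝ (Fin n), x.ofLp ∈ cu n L ↔ ∀ i, |x i| ≤ L := by
    intro x
    unfold cu
    rw [mem_Icc, Pi.le_def, Pi.le_def]
    constructor
    · intro h i
      exact abs_le.2 ⟨h.1 i, h.2 i⟩
    · intro h
      exact ⟨fun i => (abs_le.1 (h i)).1, fun i => (abs_le.1 (h i)).2⟩
  have hSy : Pool.Agent.Results.MP_6d896a_gt.OneSymmetric.SymDensity ρ' := by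
    refine ⟨fun x => hq0 _, hqm.comp meas_ofLp, ?_, ?_⟩
    · intro x y t ht0 ht1
      by_cases hx : x.ofLp ∈ cu n L
      · by_cases hy : y.ofLp ∈ cu n L
        · have hz : ((1 - t) • x + t • y).ofLp ∈ cu n L := by
            rw [hmem] at hx hy ⊢
            intro i
            have e : ((1 - t) • x + t • y) i = (1 - t) * x i + t * y i := rfl
            rw [e]
            have h1 := abs_le.1 (hx i)
            have h2 := abs_le.1 (hy i)
            apply abs_le.2
            constructor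
            · nlinarith
            · nlinarith
          rw [hin x hx, hin y hy, hin _ hz, Real.div_rpow (hpos x).le hZp.le,
            Real.div_rpow (hpos y).le hZp.le, div_mul_div_comm, ← Real.rpow_add hZp]
          have e2 : (1 - t + t : ℝ) = 1 := by ring
          rw [e2, Real.rpow_one]
          exact div_le_div_of_nonneg_right (hρ.logc x y t ht0 ht1) hZp.le
        · rw [hout y hy, Real.zero_rpow ht0.ne', mul_zero]
          exact hq0 _
      · rw [hout x hx, Real.zero_rpow (by linarith : (1 - t : ℝ) ≠ 0), zero_mul]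
        exact hq0 _
    · intro σ x y hxy
      have h1 : x.ofLp ∈ cu n L ↔ y.ofLp ∈ cu n L := by
        rw [hmem, hmem]
        constructor
        · intro h i
          rw [hxy i]
          exact h _
        · intro h i
          have h2 := h (σ.symm i)
          rw [hxy (σ.symm i), Equiv.apply_symm_apply] at h2
          exact h2
      by_cases hx : x.ofLp ∈ cu n L
      · rw [hin x hx, hin y (h1.1 hx), hρ.inv σ x y hxy]
      · rw [hout x hx, hout y fun h => hx (h1.2 h)]
  -- the measure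
  set μ : Measure (EuclideanSpace ℝ (Fin n)) :=
    volume.withDensity fun x => ENNReal.ofReal (ρ' x) with hμ
  have hW : ∀ G : (Fin n → ℝ) → ℝ, Continuous G →
      Integrable (fun x : EuclideanSpace ℝ (Fin n) => G x.ofLp) μ ∧
      ∫ x : EuclideanSpace ℝ (Fin n), G x.ofLp ∂μ = (∫ x in cu n L, fl ρ x * G x) / Z := by
    intro G hG
    obtain ⟨h1, h2⟩ := wd hqm hq0 (hqi G hG)
    refine ⟨h1, ?_⟩
    rw [← hqv G]
    exact h2
  have hprob : IsProbabilityMeasure μ := by
    constructor
    rw [hμ, withDensity_apply _ MeasurableSet.univ, Measure.restrict_univ]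
    have h1 : Integrable ρ' := by
      have h2 := hqi (fun _ => 1) continuous_const
      simp only [mul_one] at h2
      exact itg_ofLp h2
    rw [← ofReal_integral_eq_lintegral_ofReal h1 (Eventually.of_forall fun x => hq0 _)]
    have h3 : ∫ x, ρ' x = 1 := by
      have h4 := hqv fun _ => 1
      simp only [mul_one] at h4
      rw [hρ', int_ofLp q, h4, ← hZ, div_self hZp.ne']
    rw [h3, ENNReal.ofReal_one]
  have hmom' : ∀ i, ∫⁻ x, ENNReal.ofReal (x i ^ 2) ∂μ ≤ ENNReal.ofReal s := by
    intro i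
    obtain ⟨h1, h2⟩ := hW (fun x => x i ^ 2) ((continuous_apply i).pow 2)
    have h3 : ∫⁻ x, ENNReal.ofReal (x i ^ 2) ∂μ =
        ENNReal.ofReal (∫ x : EuclideanSpace ℝ (Fin n), x.ofLp i ^ 2 ∂μ) :=
      (ofReal_integral_eq_lintegral_ofReal h1 (Eventually.of_forall fun x => sq_nonneg _)).symm
    rw [h3, h2]
    apply ENNReal.ofReal_le_ofReal
    rw [div_le_iff₀ hZp]
    have h4 := hmom i
    have h5 : ∫ x in cu n L, fl ρ x * x i ^ 2 = ∫ x in cu n L, x i ^ 2 * fl ρ x := by
      congr 1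
      funext x
      ring
    rw [h5]
    exact h4
  have hf' : ContDiff ℝ 1 fun x : EuclideanSpace ℝ (Fin n) => f x.ofLp :=
    hf.comp (PiLp.continuousLinearEquiv 2 ℝ (fun _ : Fin n => ℝ)).contDiff
  obtain ⟨hA1, hA2⟩ := hW (fun x => f x ^ 2) (hf.continuous.pow 2)
  obtain ⟨hB1, hB2⟩ := hW f hf.continuous
  have hgc : Continuous (gr f) := by
    unfold gr pd
    apply continuous_finsetSum
    intro i _
    exact ((hf.continuous_fderiv one_ne_zero).clm_apply continuous_const).pow 2
  obtain ⟨hG1, hG2⟩ := hW (gr f) hgc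
  have hLp : MemLp (fun x : EuclideanSpace ℝ (Fin n) => f x.ofLp) 2 μ := by
    rw [memLp_two_iff_integrable_sq hf'.continuous.aestronglyMeasurable]
    exact hA1
  have hfin := hres n hn ρ' hSy μ hμ hprob s hs hmom' _ hf' hLp
  have hgn : ∀ x, 0 ≤ gr f x := fun x => Finset.sum_nonneg fun i _ => sq_nonneg _
  have h6 : ∫⁻ x, ENNReal.ofReal (‖fderiv ℝ (fun y : EuclideanSpace ℝ (Fin n) => f y.ofLp) x‖ ^ 2) ∂μ =
      ENNReal.ofReal (∫ x : EuclideanSpace ℝ (Fin n), gr f x.ofLp ∂μ) := by
    rw [ofReal_integral_eq_lintegral_ofReal hG1 (Eventually.of_forall fun x => hgn _)]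
    congr 1
    funext x
    rw [fderiv_ofLp hf]
  have hGn : 0 ≤ ∫ x in cu n L, fl ρ x * gr f x :=
    setIntegral_nonneg hKm fun x _ => mul_nonneg (hpos _).le (hgn x)
  rw [h6, ← ENNReal.ofReal_mul (by positivity), hG2,
    ENNReal.ofReal_le_ofReal_iff (by positivity), ProbabilityTheory.variance_eq_sub hLp] at hfin
  have h7 : ∫ x, ((fun x : EuclideanSpace ℝ (Fin n) => f x.ofLp) ^ 2) x ∂μ =
      (∫ x in cu n L, fl ρ x * f x ^ 2) / Z := hA2
  rw [h7, hB2] at hfin
  have h8 : Z * Z * ((∫ x in cu n L, fl ρ x * f x ^ 2) / Z - ((∫ x in cu n L, fl ρ x * f x) / Z) ^ 2) ≤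
      Z * Z * (C * s * ((∫ x in cu n L, fl ρ x * gr f x) / Z)) :=
    mul_le_mul_of_nonneg_left hfin (by positivity)
  have h9 : Z * Z * ((∫ x in cu n L, fl ρ x * f x ^ 2) / Z - ((∫ x in cu n L, fl ρ x * f x) / Z) ^ 2) =
      Z * (∫ x in cu n L, fl ρ x * f x ^ 2) - (∫ x in cu n L, fl ρ x * f x) ^ 2 := by
    field_simp
  have h10 : Z * Z * (C * s * ((∫ x in cu n L, fl ρ x * gr f x) / Z)) =
      Z * (C * s * ∫ x in cu n L, fl ρ x * gr f x) := by
    field_simp
  rw [h9, h10] at h8
  exact h8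

end Pool.Agent.J4H98.XC
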